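import Pool.Agent.H65.PK.Targets

set_option autoImplicit false

open Polynomial Module

namespace Pool.Agent.H30.PKER

open Pool.Agent.H65.PK

private theorem mpr_sum_mem {J R : Type} [Fintype J] [AddCommGroup R] [Module ℚ R]
    (x : J → Module.End ℚ R) (y : J → ℚ) (V U : Submodule ℚ R)
    (h : ∀ e, ∀ v ∈ V, x e v ∈ U) (v : R) (hv : v ∈ V) : (∑ e, y e • x e) v ∈ U := by
  rw [LinearMap.sum_apply]
  refine Submodule.sum_mem _ fun e _ => ?_
  rw [LinearMap.smul_apply]
  exact Submodule.smul_mem _ _ (h e v hv)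

private theorem mpr_finrank_map {R : Type} [AddCommGroup R] [Module ℚ R]
    (X : Module.End ℚ R) (hX : Function.Injective X)
    (V : Submodule ℚ R) : finrank ℚ (V.map X) = finrank ℚ V :=
  (LinearEquiv.finrank_eq (Submodule.equivMapOfInjective X hX V)).symm

private theorem mpr_anti {J R : Type} [Fintype J] [AddCommGroup R] [Module ℚ R]
    (x : J → Module.End ℚ R)
    (h : ∀ e f, ∃ b : ℚ, x e * x f + x f * x e = b • (1 : Module.End ℚ R))
    (y : J → ℚ) (e : J) :
    ∃ b : ℚ, x e * (∑ f, y f • x f) + (∑ f, y f • x f) * x e = b • (1 : Module.End ℚ R) := by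
  choose b hb using h
  refine ⟨∑ f, y f * b e f, ?_⟩
  rw [Finset.mul_sum, Finset.sum_mul, ← Finset.sum_add_distrib, Finset.sum_smul]
  refine Finset.sum_congr rfl fun f _ => ?_
  rw [mul_smul_comm, smul_mul_assoc, ← smul_add, hb, smul_smul]

theorem pf_MPR : T_MPR := by
  intro J R _ _ _ _ _ x hx ⟨y, b, hb, hXX⟩
  set X : Module.End ℚ R := ∑ e, y e • x e with hX
  have hXXv : ∀ v, X (X v) = b • v := fun v => by
    have := congrArg (fun T : Module.End ℚ R => T v) hXX
    simpa using this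
  have hinj : Function.Injective X := by
    intro u v huv
    have h1 : b • u = b • v := by rw [← hXXv, ← hXXv, huv]
    exact smul_right_injective R hb h1
  have hle : ∀ V' U' : Submodule ℚ R, (∀ e, ∀ v ∈ V', x e v ∈ U') →
      finrank ℚ V' ≤ finrank ℚ U' := by
    intro V' U' h
    rw [← mpr_finrank_map X hinj V']
    refine Submodule.finrank_mono ?_
    rintro _ ⟨v, hv, rfl⟩
    exact mpr_sum_mem x y V' U' h v hv
  classical
  have hex : ∃ n : ℕ, ∃ V U : Submodule ℚ R, V ≠ ⊥ ∧ finrank ℚ V = n ∧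
      finrank ℚ V = finrank ℚ U ∧ ∀ e, ∀ v ∈ V, x e v ∈ U :=
    ⟨_, ⊤, ⊤, top_ne_bot, rfl, rfl, fun _ _ _ => Submodule.mem_top⟩
  obtain ⟨V, U, hV, hn, hVU, hs⟩ := Nat.find_spec hex
  have hmin : ∀ V' U' : Submodule ℚ R, (∀ e, ∀ v ∈ V', x e v ∈ U') → V' ≠ ⊥ →
      finrank ℚ V' = finrank ℚ U' → finrank ℚ V ≤ finrank ℚ V' := by
    intro V' U' h1 h2 h3
    rw [hn]
    exact Nat.find_min' hex ⟨V', U', h2, rfl, h3, h1⟩
  have hU : V.map X = U := by
    refine Submodule.eq_of_le_of_finrank_eq ?_ ?_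
    · rintro _ ⟨v, hv, rfl⟩
      exact mpr_sum_mem x y V U hs v hv
    · rw [mpr_finrank_map X hinj V, hVU]
  refine ⟨V, U, hV, hVU, hs, ?_, hle, hmin⟩
  intro e u hu
  rw [← hU] at hu
  obtain ⟨v, hv, rfl⟩ := hu
  obtain ⟨c, hc⟩ := mpr_anti x hx y e
  rw [← hX] at hc
  have h1 : x e (X v) + X (x e v) = c • v := by
    have := congrArg (fun T : Module.End ℚ R => T v) hc
    simpa using this
  have h2 : x e v ∈ V.map X := by rw [hU]; exact hs e v hv
  obtain ⟨v', hv', h3⟩ := h2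
  have h4 : x e (X v) = c • v - b • v' := by
    rw [← h1, ← h3, hXXv]; abel
  rw [h4]
  exact Submodule.sub_mem _ (Submodule.smul_mem _ _ hv) (Submodule.smul_mem _ _ hv')

end Pool.Agent.H30.PKER
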